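import Pool.Agent.Edg.Fin2

/-!
MP_46801b_nt (Edgar): `1 + q + ... + q^(x-1) = p^y` with `p`, `q` odd primes, `x ≥ 5`, `y ≥ 2`.

A lower bound for `p^(y/d)` in terms of `q`, for every odd common divisor `d > 1` of `y` and
`q - 1`.
-/

namespace Pool.Agent.Results.MP_46801b_nt.JacobiBound

open Pool.Agent.Edg

/-- Let `1 + q + ... + q^(x-1) = p^y` with primes `p ≠ 2`, `q`, and `x ≥ 5`, `y ≥ 2`. Let `d > 1`
be an odd common divisor of `y` and `q - 1`, `P = p^(y/d)`, and `N = ⌊(x-1)/3⌋ - ⌊x/4⌋` (this is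
the number of integers `c` with `x/4 < c < x/3`). Then `(q/2)^(x-1) ≤ P^(2N)`. If moreover the
order of `q` modulo `x` is even, or `q = x` (then `orderOf` is `0`), then
`(q/2)^(x-1) ≤ P^N`. -/
theorem result (p q x y d : ℕ) (hp : p.Prime) (hp2 : p ≠ 2) (hq : q.Prime)
    (hx : 5 ≤ x) (hy : 2 ≤ y)
    (h : ∑ i ∈ Finset.range x, q ^ i = p ^ y)
    (hd : Odd d) (hd1 : 1 < d) (hdy : d ∣ y) (hdq : d ∣ q - 1) :
    q ^ (x - 1) ≤ 2 ^ (x - 1) * (p ^ (y / d)) ^ (2 * ((x - 1) / 3 - x / 4)) ∧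
    (¬ Odd (orderOf (q : ZMod x)) →
      q ^ (x - 1) ≤ 2 ^ (x - 1) * (p ^ (y / d)) ^ ((x - 1) / 3 - x / 4)) :=
  size_all2 hp hp2 hq hx hy h hd hd1 hdy hdq

end Pool.Agent.Results.MP_46801b_nt.JacobiBound
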