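import Pool.Agent.Edg.Mi8

/-!
MP_46801b_nt (Edgar): `1 + q + ... + q^(x-1) = p^y` with `p`, `q` odd primes, `x ≥ 5`, `y ≥ 2`.

A solution forces many ideal classes of order dividing `y` in the minus part of the class group of
the field of `x`-th roots of unity.
-/

namespace Pool.Agent.Results.MP_46801b_nt.ManyClasses

open Pool.Agent.Edg NumberField

/-- Let `1 + q + ... + q^(x-1) = p^y` with primes `p ≠ 2`, `q`, and `x ≥ 5`, `y ≥ 2`. Let `d` be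
an odd common divisor of `y` and `q - 1`. Let `K = ℚ(ζ_x)`, let `σ` be complex conjugation on its
ring of integers, and let `H` be the number of ideal classes `c` of `K` with `c^d = 1` and
`c * σ(c) = 1`. Let `2 k ≤ d` and `5 * 2^d ≤ 4 q^(d-2k)` (this holds if `5 k < 2 d`, except for
`d = 3`, `q = 7`). Let `f` be the order of `q` modulo `x` (`orderOf` is `0` if `q = x`). Then:

* if `q ≠ x`: for every `s : (ℤ/x)ˣ → ℤ` there are at most `H` functions `w : (ℤ/x)ˣ → ℤ` with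
  `w (-c) = - w c` and `∑ |w c| ≤ 2 k` and with the same sum as `s` over each coset of the subgroup
  generated by `q`;
* if `k ≥ 1` then `f ≤ H`;
* if `f` is even, or `q = x`: there are at most `H` integer vectors of length `(x-1)/2` with
  `∑ |v i| ≤ k`;
* if `2 j ≤ k`: there are at most `H` integer vectors of length `⌊(x-1)/3⌋` with
  `∑ |v i| ≤ j`. -/
theorem result (p q x y d k : ℕ) [NeZero x] (hp : p.Prime) (hp2 : p ≠ 2) (hq : q.Prime)
    (hx : 5 ≤ x) (hy : 2 ≤ y)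
    (h : ∑ i ∈ Finset.range x, q ^ i = p ^ y)
    (hd : Odd d) (hdy : d ∣ y) (hdq : d ∣ q - 1)
    (hk : (2 * k ≤ d ∧ 5 * 2 ^ d ≤ 4 * q ^ (d - 2 * k)) ∨ (5 * k < 2 * d ∧ ¬ (d = 3 ∧ q = 7)))
    (K : Type) [Field K] [NumberField K] [IsCyclotomicExtension {x} ℚ K]
    (σ : 𝓞 K ≃+* 𝓞 K)
    (hσ : ∀ (φ : K →+* ℂ) (a : 𝓞 K), φ (σ a : K) = starRingEnd ℂ (φ (a : K)))
    (H : ℕ) (hH : H = Nat.card {c : ClassGroup (𝓞 K) // c ^ d = 1 ∧
        ∃ I : nonZeroDivisors (Ideal (𝓞 K)), ClassGroup.mk0 I = c ∧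
          ((I : Ideal (𝓞 K)) * (I : Ideal (𝓞 K)).map σ).IsPrincipal}) :
    (∀ (u : (ZMod x)ˣ) (s : (ZMod x)ˣ → ℤ), (u : ZMod x) = q →
      Nat.card {w : (ZMod x)ˣ → ℤ // (∀ c, w (-c) = -w c) ∧ ∑ c, |w c| ≤ 2 * k ∧
        ∀ c, ∑ i ∈ Finset.range (orderOf u), w (c * u ^ i) =
          ∑ i ∈ Finset.range (orderOf u), s (c * u ^ i)} ≤ H) ∧
    (1 ≤ k → orderOf (q : ZMod x) ≤ H) ∧
    (¬ Odd (orderOf (q : ZMod x)) →
      Nat.card {v : Fin ((x - 1) / 2) → ℤ // ∑ i, |v i| ≤ k} ≤ H) ∧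
    (∀ j : ℕ, 2 * j ≤ k → Nat.card {v : Fin ((x - 1) / 3) → ℤ // ∑ i, |v i| ≤ j} ≤ H) :=
  final hp hp2 hq hx hy h hd hdy hdq hk K σ hσ H hH

end Pool.Agent.Results.MP_46801b_nt.ManyClasses
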