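import Pool.Agent.Edg.Mi6

/-!
MP_46801b_nt (Edgar): `1 + q + ... + q^(x-1) = p^y` with `p`, `q` odd primes, `x ≥ 5`, `y ≥ 2`.

For every odd prime `l` dividing `q - 1` the full power of `l` in the exponent `y` divides the
relative class number of the cyclotomic field of `x`-th roots of unity.
-/

namespace Pool.Agent.Results.MP_46801b_nt.RelativeClass

open Pool.Agent.Edg NumberField

/-- Let `1 + q + ... + q^(x-1) = p^y` with `p`, `q` odd primes, `x ≥ 5`, `y ≥ 2`. Let `K = ℚ(ζ_x)`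
and let `σ` be complex conjugation on its ring of integers. Let `H` be the group of ideal classes
`c` of `K` with `c * σ(c) = 1` (its order is the relative class number, as `x` is prime). Then for
every odd prime `l` dividing `q - 1` the number `l ^ v_l(y)` divides the order of `H`, and the order
of `H` divides the class number of `K`. -/
theorem result (p q x y l : ℕ) (hp : p.Prime) (hp2 : p ≠ 2) (hq : q.Prime)
    (hq2 : q ≠ 2) (hx : 5 ≤ x) (hy : 2 ≤ y)
    (h : ∑ i ∈ Finset.range x, q ^ i = p ^ y)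
    (hl : l.Prime) (hl2 : l ≠ 2) (hlq : l ∣ q - 1)
    (K : Type) [Field K] [NumberField K] [IsCyclotomicExtension {x} ℚ K] (σ : 𝓞 K ≃+* 𝓞 K)
    (hσ : ∀ (φ : K →+* ℂ) (a : 𝓞 K), φ (σ a : K) = starRingEnd ℂ (φ (a : K))) :
    l ^ padicValNat l y ∣ Nat.card {c : ClassGroup (𝓞 K) //
        ∃ I : nonZeroDivisors (Ideal (𝓞 K)), ClassGroup.mk0 I = c ∧
          ((I : Ideal (𝓞 K)) * (I : Ideal (𝓞 K)).map σ).IsPrincipal} ∧
    Nat.card {c : ClassGroup (𝓞 K) //
        ∃ I : nonZeroDivisors (Ideal (𝓞 K)), ClassGroup.mk0 I = c ∧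
          ((I : Ideal (𝓞 K)) * (I : Ideal (𝓞 K)).map σ).IsPrincipal} ∣ classNumber K :=
  rel_class hp hp2 hq hq2 hx hy h hl hl2 hlq K σ hσ

end Pool.Agent.Results.MP_46801b_nt.RelativeClass
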