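import Pool.Agent.Edg.Wie3

/-!
MP_46801b_nt (Edgar): `1 + q + ... + q^(x-1) = p^y` with `p`, `q` odd primes, `x ≥ 5`, `y ≥ 2`.

A Wieferich type condition on `x` and `q`, for every odd prime `l` dividing `y` and `q - 1`.
-/

namespace Pool.Agent.Results.MP_46801b_nt.Wieferich

open Pool.Agent.Edg

/-- Let `1 + q + ... + q^(x-1) = p^y` with primes `p ≠ 2`, `q`, and `x ≥ 5`, `y ≥ 2`. Let `l` be
an odd prime with `l ∣ y`, `l ∣ q - 1` and `l ∤ x - 1`, and let `v` be the exponent of `l` in `y`.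
Then `l ^ (v + 1)` divides `q - 1` and `x ^ (l - 1) ≡ 1` modulo `l ^ (v + 1)`. -/
theorem result (p q x y l : ℕ) (hp : p.Prime) (hp2 : p ≠ 2) (hq : q.Prime)
    (hx : 5 ≤ x) (hy : 2 ≤ y)
    (h : ∑ i ∈ Finset.range x, q ^ i = p ^ y)
    (hl : l.Prime) (hl2 : l ≠ 2) (hlq : l ∣ q - 1) (hlx : ¬ l ∣ x - 1) :
    l ^ (padicValNat l y + 1) ∣ q - 1 ∧ l ^ (padicValNat l y + 1) ∣ x ^ (l - 1) - 1 :=
  wieferich hp hp2 hq hx hy h hl hl2 hlq hlx

end Pool.Agent.Results.MP_46801b_nt.Wieferich
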